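import Pool.Agent.helper85.AQ.SpecB
import Pool.Agent.helper56.TD.MV2

/-!
# Project aq (MP_3703a7_ag), row BM2: moving a point whose coordinate is not integral (residue characteristic different from `l`); adaptation of TD.MV2 (helper56)
-/

set_option autoImplicit false

namespace Pool.Agent.AQ

open Polynomial Pool.Agent.HC Pool.Agent.HC.SJ Pool.Agent.SJ Pool.Agent.GJ Pool.Agent.TK Pool.Agent.CM
open Pool.Agent.TQJ Pool.Agent.TQG
open Pool.Agent.FJ (VT Om chiO rf rs IsFrobO)
open Pool.Agent.TD (zK DvK bC mK IsPhiK Stab)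
open scoped TensorProduct NumberField

noncomputable section

theorem BM2 (hMN : TD.MN_stmt) (hMK : TD.MK_stmt) (h4 : YA4_stmt) (h7 : KA7_stmt) (hB1 : KB1_stmt)
    (hF3 : FJ.B3_stmt) : BM2_stmt := by
  classical
  intro K _ _ O l n hlF hlO hl2 μ a' a b _ _ h h' _ q0 hq0
  have hl : l.Prime := hlF.out
  have hG : Good K l μ a := inferInstance
  have hlK : NeZero (l : K) := ⟨by
    intro h0
    apply hlO.out
    have h1 : (l : O) = 0 := Subtype.ext (by push_cast; exact h0)
    have h2 := congrArg (rs O) h1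
    rw [map_natCast, map_zero] at h2
    exact h2⟩
  obtain ⟨s, m, r, D, hs, hm, hr, hD⟩ := Pool.Agent.TD.MV2_arith l n μ hG.pos hG.lt hG.inf
  obtain ⟨u, hu⟩ := Pool.Agent.TD.MV2_unit (K := K) (l := l) (a := a) hG.pos m
  have hw := Pool.Agent.TD.MV2_w q0 s m r hm u hu
  set w := ev q0 (CR.y ^ s * u) with hw0
  have haO : ∀ i, a i ∈ O := fun i => by
    rw [← h i]
    exact (a' i).2
  obtain ⟨hu0, hw1, hc⟩ := Pool.Agent.TD.MV2_val O l n D a haO r hr hD q0.1.1 w hq0 hw
  set c := -(1 + w) / q0.1.1 ^ D with hcdef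
  have hc0 : c ≠ 0 := div_ne_zero (neg_ne_zero.2 hw1) (pow_ne_zero _ hu0)
  have hcO : c ∈ O := (O.valuation_le_one_iff c).1 hc.le
  have hcr : rs O ⟨c, hcO⟩ = 0 := by
    rw [IsLocalRing.residue_eq_zero_iff, ValuationSubring.valuation_lt_one_iff]
    exact hc
  -- the polynomials
  set P : K[X] := (C c * X ^ D + 1) ^ l + ∏ i, (X - C (a i)) ^ r i with hP
  set P' : O[X] := (C (⟨c, hcO⟩ : O) * X ^ D + 1) ^ l + ∏ i, (X - C (a' i)) ^ r i with hP'
  have hPK : P'.map O.subtype = P := by
    rw [hP', hP, Polynomial.map_add, Polynomial.map_pow, Polynomial.map_add, Polynomial.map_mul, Polynomial.map_pow,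
      map_C, map_X, Polynomial.map_one, Polynomial.map_prod]
    congr 1
    refine Finset.prod_congr rfl fun i _ => ?_
    rw [Polynomial.map_pow, Polynomial.map_sub, map_X, map_C, h]
  have hPr : P'.map (rs O) = 1 + ∏ i, (X - C (b i)) ^ r i := by
    rw [hP', Polynomial.map_add, Polynomial.map_pow, Polynomial.map_add, Polynomial.map_mul, Polynomial.map_pow,
      map_C, map_X, Polynomial.map_one, Polynomial.map_prod, hcr, C_0, zero_mul, zero_add, one_pow]
    congr 1
    refine Finset.prod_congr rfl fun i _ => ?_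
    rw [Polynomial.map_pow, Polynomial.map_sub, map_X, map_C, h']
  have hPa : ∀ i, P.eval (a i) ≠ 0 := by
    intro i
    rw [hP, eval_add, Pool.Agent.TD.MV2_ev n a r hr, add_zero, eval_pow]
    refine pow_ne_zero _ ?_
    rw [eval_add, eval_mul, eval_C, eval_pow, eval_X, eval_one]
    intro h0
    have h1 : O.valuation (c * a i ^ D) < 1 := by
      rw [map_mul]
      have h2 : O.valuation (a i ^ D) ≤ 1 := (O.valuation_le_one_iff _).2 (pow_mem (haO i) D)
      calc O.valuation c * O.valuation (a i ^ D) ≤ O.valuation c * 1 := mul_le_mul_right h2 _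
        _ < 1 := by rw [mul_one]; exact hc
    rw [eq_neg_of_add_eq_zero_left h0, Valuation.map_neg, map_one] at h1
    exact lt_irrefl _ h1
  have hP0 : P ≠ 0 := by
    intro h0
    apply hPa 0
    rw [h0, eval_zero]
  have hnorm := hMN K l n hl2 μ a s m r u (C c * X ^ D + 1) hs hm hu
  obtain ⟨S, c2, hc2, hdiv, hPS, hzero⟩ := hMK K l n μ a _ P hP0 hPa hnorm
  have hev : ev q0 (CR.pol (C c * X ^ D + 1) + CR.y ^ s * u : CR K l μ a) = 0 := by
    rw [map_add, ev_pol, ← hw0, eval_add, eval_mul, eval_C, eval_pow, eval_X, eval_one, hcdef,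
      div_mul_cancel₀ _ (pow_ne_zero _ hu0)]
    ring
  obtain ⟨S', rfl⟩ := Multiset.exists_cons_of_mem (hzero q0 hev)
  -- the degrees
  have hcard : Multiset.card (q0 ::ₘ S') = l * D := by
    have h1 := Pool.Agent.TD.MV2_deg2 n l D a r hD c hc0
    rw [← hP, hPS, natDegree_C_mul hc2] at h1
    have h2 : ((q0 ::ₘ S').map fun q => X - C q.1.1 : Multiset K[X]) =
        (((q0 ::ₘ S').map fun q => q.1.1).map fun x => X - C x) := by
      rw [Multiset.map_map]
      rfl
    rw [h2, natDegree_multiset_prod_X_sub_C_eq_card, Multiset.card_map] at h1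
    exact h1
  have hPr0 : P'.map (rs O) ≠ 0 := by
    intro h0
    have h1 := congrArg (eval (b 0)) h0
    rw [hPr, eval_add, eval_one, Pool.Agent.TD.MV2_ev n b r hr, add_zero, eval_zero] at h1
    exact one_ne_zero h1
  obtain ⟨R', hR', c3, hc3, hR3⟩ := hF3 K O P' c2 ((q0 ::ₘ S').map fun q => q.1.1) hPr0 (by
    rw [hPK, hPS, Multiset.map_map]
    rfl)
  have hcR : Multiset.card R' = ∑ i, r i := by
    have h1 := Pool.Agent.TD.MV2_deg3 n b r hr
    rw [← hPr, hR3, natDegree_C_mul hc3] at h1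
    have h2 : (R'.map fun u => X - C (rs O u) : Multiset (rf O)[X]) =
        ((R'.map fun u => rs O u).map fun x => X - C x) := by
      rw [Multiset.map_map]
      rfl
    rw [h2, natDegree_multiset_prod_X_sub_C_eq_card, Multiset.card_map] at h1
    exact h1
  rw [Multiset.map_cons, Multiset.filter_cons_of_neg _ hq0] at hR'
  have hfil : (S'.map fun q => q.1.1).filter (fun u => u ∈ O) = S'.map fun q => q.1.1 := by
    refine Multiset.eq_of_le_of_card_le (Multiset.filter_le _ _) ?_
    rw [← hR', Multiset.card_map, Multiset.card_map, hcR]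
    rw [Multiset.card_cons] at hcard
    omega
  have hall : ∀ q ∈ S', ∃ q' : Pc O l μ a', mapPc O.subtype h q' = q := by
    intro q hq
    have hqO : q.1.1 ∈ O := by
      have h1 := Multiset.filter_eq_self.1 hfil q.1.1 (Multiset.mem_map_of_mem _ hq)
      exact h1
    refine ((hB1 K O l n μ a' a b h h' hG.pos).1 q).2 ⟨⟨q.1.1, hqO⟩, rfl, fun j hj => ?_⟩
    have hmem : (⟨q.1.1, hqO⟩ : O) ∈ R' := by
      have h1 : q.1.1 ∈ R'.map (fun u : O => (u : K)) := by
        rw [hR', hfil]
        exact Multiset.mem_map_of_mem _ hq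
      obtain ⟨x, hx, hxq⟩ := Multiset.mem_map.1 h1
      have h2 : x = ⟨q.1.1, hqO⟩ := Subtype.ext hxq
      rw [← h2]
      exact hx
    have h1 : (P'.map (rs O)).eval (b j) = 1 := by
      rw [hPr, eval_add, eval_one, Pool.Agent.TD.MV2_ev n b r hr, add_zero]
    rw [hR3, eval_mul, eval_multiset_prod, Multiset.map_map, ← hj] at h1
    rw [Multiset.prod_eq_zero, mul_zero] at h1
    · exact zero_ne_one h1
    · refine Multiset.mem_map.2 ⟨_, hmem, ?_⟩
      show eval (rs O _) (X - C (rs O _)) = 0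
      rw [eval_sub, eval_X, eval_C, sub_self]
  obtain ⟨T, hT⟩ := Pool.Agent.TD.MV2_lift (mapPc O.subtype h) S' hall
  refine ⟨T, ?_⟩
  rw [hT]
  have h8 := ((h7 K l n μ a).2.2.1 (q0 ::ₘ S')).2 ⟨_, hdiv.symm⟩
  rw [Multiset.map_cons, Multiset.prod_cons] at h8
  exact h8

end

end Pool.Agent.AQ
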